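import Mathlib
import Pool.Agent.R504.Mahler

set_option autoImplicit false

/-!
# Bounded valuations of `A_{2,11}(n)` (MP_8976f7_nt)

`ν_2(A_{2,11}(n)) ≤ 4` for all `n`, although `11` is not in `E_2 = {2^s - 1}`.

Proof. Let `B(x) = ∑ A_{2,11}(n) x^n`, so `B(x) = (1 - x)^(-11) B(x^2)`, and let
`G(x) = (1 - x)^(-16) B(x)`. Modulo `32`, `(1 - x)^32 = (1 - x^2)^16`, so `G(x) = (1 - x)^5 G(x^2)`. If `P`
is a polynomial and `(1 - x)^5 P(x) = P_0(x^2) + x P_1(x^2)`, the coefficients of `x^(2n)` and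
`x^(2n+1)` in `P G` are those of `x^n` in `P_0 G` and `P_1 G`. Starting with `P = (1 - x)^16` one meets
only 70 polynomials modulo `32` in this way, and none of them vanishes at `0` modulo `32`.
-/

namespace Pool.Agent.Results.MP_8976f7_nt.BoundedForEleven

open PowerSeries Pool.Agent.R504

/-- `A_{m,k}(n)`, the coefficient of `x^n` in `∏_i (1 - x^(m^i))^(-k)`; the factors with `i > n` do not
influence this coefficient if `m ≥ 2` and are omitted -/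
noncomputable def A (m k n : ℕ) : ℤ :=
  coeff n (invOfUnit (∏ i ∈ Finset.range (n + 1), (1 - X ^ m ^ i) ^ k : ℤ⟦X⟧) 1)

/-- `E_p = {(p-1)(u p^s - 1) : s ≥ 0, 1 ≤ u ≤ p - 1}` -/
def E (p : ℕ) : Set ℕ := {k | ∃ s u : ℕ, 1 ≤ u ∧ u ≤ p - 1 ∧ k = (p - 1) * (u * p ^ s - 1)}

/-! ### the generating function -/

lemma A_eq (k n : ℕ) : A 2 k n = coeff n ((1 - X) ^ k * Mahler.F k) := by
  rw [Mahler.coeff_mul_F k n n le_rfl]
  unfold A
  congr 1
  set P : ℤ⟦X⟧ := ∏ i ∈ Finset.range (n + 1), (1 - X ^ 2 ^ i) ^ k with hP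
  have hD : Mahler.Dn k n = (1 - X) ^ k * P := rfl
  have h1 := Mahler.Dn_mul_Fn k n
  rw [hD] at h1
  have hc : constantCoeff P = 1 := by
    have h2 : ∀ i : ℕ, (0 : ℤ) ^ 2 ^ i = 0 := fun i => zero_pow (by positivity)
    rw [hP]
    simp only [map_pow, map_sub, map_one, map_prod, constantCoeff_X, h2, sub_zero, one_pow,
      Finset.prod_const_one]
  have h2 : P * invOfUnit P 1 = 1 := mul_invOfUnit _ _ (by simpa using hc)
  calc invOfUnit P 1 = invOfUnit P 1 * ((1 - X) ^ k * P * Mahler.Fn k n) := by rw [h1, mul_one]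
    _ = (P * invOfUnit P 1) * ((1 - X) ^ k * Mahler.Fn k n) := by ring
    _ = _ := by rw [h2, one_mul]

section
variable (Λ : Type*) [CommRing Λ]

/-- the generating function over `Λ` -/
noncomputable def B (k : ℕ) : Λ⟦X⟧ := (1 - X) ^ k * Mahler.FΛ Λ k

lemma coeff_B (k n : ℕ) : coeff n (B Λ k) = (A 2 k n : Λ) := by
  have h : B Λ k = PowerSeries.map (Int.castRingHom Λ) ((1 - X) ^ k * Mahler.F k) := by
    unfold B Mahler.FΛ
    simp only [map_mul, map_pow, map_sub, map_one, PowerSeries.map_X]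
  rw [h, coeff_map, A_eq]
  rfl

lemma B_eq (k : ℕ) : (1 - X) ^ k * B Λ k = expand 2 two_ne_zero (B Λ k) := by
  have h := Mahler.FΛ_eq Λ k
  unfold B
  rw [map_mul, map_pow, map_sub, map_one, expand_X]
  have h2 : (1 - X ^ 2 : Λ⟦X⟧) ^ k = (1 - X) ^ k * (1 + X) ^ k := by
    rw [← mul_pow]; congr 1; ring
  rw [h2]
  linear_combination (1 - X : Λ⟦X⟧) ^ k * h

/-- `(1 - x)^(-16) B(x)` -/
noncomputable def G : Λ⟦X⟧ := (PowerSeries.mk 1) ^ 16 * B Λ 11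

lemma w_mul : (PowerSeries.mk 1 : Λ⟦X⟧) * (1 - X) = 1 := mk_one_mul_one_sub_eq_one Λ

lemma G_mul : (1 - X) ^ 16 * G Λ = B Λ 11 := by
  unfold G
  rw [← mul_assoc, ← mul_pow, mul_comm (1 - X : Λ⟦X⟧), w_mul, one_pow, one_mul]

variable {Λ}

lemma pow32 (h : (32 : Λ⟦X⟧) = 0) : (1 - X : Λ⟦X⟧) ^ 32 = (1 - X ^ 2) ^ 16 := by
  have h1 : (1 - X : Λ⟦X⟧) ^ 2 = (1 - X ^ 2) - 2 * X * (1 - X) := by ring
  set y : Λ⟦X⟧ := X * (1 - X) with hy
  set z : Λ⟦X⟧ := 1 - X ^ 2 with hz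
  have e1 : (1 - X : Λ⟦X⟧) ^ 2 = z - 2 * y := by rw [h1, hy]; ring
  obtain ⟨y2, e2⟩ : ∃ y2 : Λ⟦X⟧, (1 - X : Λ⟦X⟧) ^ 4 = z ^ 2 + 4 * y2 := by
    refine ⟨y ^ 2 - z * y, ?_⟩
    rw [show (1 - X : Λ⟦X⟧) ^ 4 = ((1 - X) ^ 2) ^ 2 by rw [← pow_mul], e1]
    ring
  obtain ⟨y3, e3⟩ : ∃ y3 : Λ⟦X⟧, (1 - X : Λ⟦X⟧) ^ 8 = z ^ 4 + 8 * y3 := by
    refine ⟨z ^ 2 * y2 + 2 * y2 ^ 2, ?_⟩
    rw [show (1 - X : Λ⟦X⟧) ^ 8 = ((1 - X) ^ 4) ^ 2 by rw [← pow_mul], e2]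
    ring
  obtain ⟨y4, e4⟩ : ∃ y4 : Λ⟦X⟧, (1 - X : Λ⟦X⟧) ^ 16 = z ^ 8 + 16 * y4 := by
    refine ⟨z ^ 4 * y3 + 4 * y3 ^ 2, ?_⟩
    rw [show (1 - X : Λ⟦X⟧) ^ 16 = ((1 - X) ^ 8) ^ 2 by rw [← pow_mul], e3]
    ring
  rw [show (1 - X : Λ⟦X⟧) ^ 32 = ((1 - X) ^ 16) ^ 2 by rw [← pow_mul], e4]
  linear_combination (z ^ 8 * y4 + 8 * y4 ^ 2) * h

lemma G_eq (h : (32 : Λ⟦X⟧) = 0) : G Λ = (1 - X) ^ 5 * expand 2 two_ne_zero (G Λ) := by
  have hu : IsUnit ((1 - X : Λ⟦X⟧) ^ 27) := Mahler.isUnit_one_sub_X.pow 27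
  apply hu.mul_left_cancel
  have h1 := congrArg (expand 2 two_ne_zero) (G_mul Λ)
  rw [map_mul, map_pow, map_sub, map_one, expand_X, ← pow32 h, ← B_eq, ← G_mul] at h1
  calc (1 - X) ^ 27 * G Λ = (1 - X) ^ 11 * ((1 - X) ^ 16 * G Λ) := by
        rw [← mul_assoc, ← pow_add]
    _ = (1 - X) ^ 32 * expand 2 two_ne_zero (G Λ) := h1.symm
    _ = (1 - X) ^ 27 * ((1 - X) ^ 5 * expand 2 two_ne_zero (G Λ)) := by
        rw [← mul_assoc, ← pow_add]

end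

/-! ### the automaton -/

/-- rows: the two successor states, and the coefficients of the polynomial -/
def tabl : List (ℕ × ℕ × List ℕ) :=
  [(1, 2, [1, 16, 24, 16, 28, 16, 8, 16, 6, 16, 8, 16, 28, 16, 24, 16, 1]),
   (3, 4, [1, 18, 1, 24, 2, 12, 10, 24, 29, 18, 21]),
   (5, 6, [11, 14, 3, 8, 22, 20, 30, 8, 31, 14, 31]), (7, 8, [1, 17, 5, 5, 3, 19, 23, 23]),
   (9, 10, [13, 29, 1, 1, 7, 23, 11, 11]), (11, 12, [11, 11, 23, 7, 1, 1, 29, 13]),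
   (13, 14, [23, 23, 19, 3, 5, 5, 17, 1]), (15, 16, [1, 26, 23, 12, 31, 26, 9]),
   (17, 18, [12, 12, 24, 24, 28, 28]), (19, 20, [13, 18, 11, 28, 19, 18, 21]),
   (21, 18, [28, 28, 24, 24, 12, 12]), (22, 23, [11, 14, 13, 4, 21, 14, 19]),
   (24, 18, [20, 20, 8, 8, 4, 4]), (25, 26, [23, 6, 1, 20, 9, 6, 31]),
   (27, 18, [4, 4, 8, 8, 20, 20]), (28, 29, [1, 31, 10, 30, 5, 19]),
   (30, 31, [21, 19, 18, 6, 9, 23]), (8, 32, [12, 20, 24, 8, 28, 4]),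
   (18, 18, [16, 0, 0, 0, 16]), (33, 34, [13, 19, 2, 6, 1, 23]),
   (35, 36, [17, 23, 10, 14, 21, 11]), (10, 32, [28, 4, 24, 8, 12, 20]),
   (37, 38, [11, 21, 14, 10, 23, 17]), (39, 40, [23, 1, 6, 2, 19, 13]),
   (12, 41, [20, 12, 8, 24, 4, 28]), (42, 43, [23, 9, 6, 18, 19, 21]),
   (44, 45, [19, 5, 30, 10, 31, 1]), (14, 41, [4, 28, 8, 24, 20, 12]),
   (46, 47, [1, 25, 2, 26, 29, 13]), (48, 49, [26, 24, 28, 24, 26]),
   (50, 51, [21, 5, 10, 18, 1, 9]), (52, 53, [10, 24, 28, 24, 10]), (32, 41, [24, 0, 16, 0, 24]),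
   (54, 55, [13, 5, 26, 18, 25, 9]), (56, 57, [18, 24, 12, 24, 18]),
   (58, 59, [17, 1, 2, 10, 13, 21]), (60, 61, [2, 24, 12, 24, 2]),
   (62, 51, [11, 19, 22, 30, 31, 15]), (57, 56, [30, 8, 20, 8, 30]),
   (63, 47, [23, 7, 14, 6, 27, 19]), (61, 60, [14, 8, 20, 8, 14]), (41, 32, [8, 0, 16, 0, 8]),
   (64, 59, [23, 31, 14, 22, 27, 11]), (49, 48, [22, 8, 4, 8, 22]),
   (65, 55, [19, 3, 6, 30, 7, 31]), (53, 52, [6, 8, 4, 8, 6]), (28, 31, [1, 15, 26, 14, 21, 19]),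
   (66, 67, [20, 0, 8, 0, 4]), (48, 53, [26, 8, 12, 8, 10]), (49, 52, [22, 24, 20, 24, 6]),
   (30, 29, [21, 3, 2, 22, 25, 23]), (67, 66, [28, 0, 24, 0, 12]), (52, 49, [10, 8, 12, 8, 26]),
   (53, 48, [6, 24, 20, 24, 22]), (33, 36, [13, 3, 18, 22, 17, 23]), (68, 69, [4, 0, 8, 0, 20]),
   (56, 61, [18, 8, 28, 8, 2]), (57, 60, [30, 24, 4, 24, 14]), (35, 34, [17, 7, 26, 30, 5, 11]),
   (69, 68, [12, 0, 24, 0, 28]), (60, 57, [2, 8, 28, 8, 18]), (61, 56, [14, 24, 4, 24, 30]),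
   (37, 40, [11, 5, 30, 26, 7, 17]), (39, 38, [23, 17, 22, 18, 3, 13]),
   (42, 45, [23, 25, 22, 2, 3, 21]), (44, 43, [19, 21, 14, 26, 15, 1]),
   (66, 69, [20, 16, 24, 16, 20]), (67, 68, [28, 16, 8, 16, 28]), (68, 67, [4, 16, 24, 16, 4]),
   (69, 66, [12, 16, 8, 16, 12])]

def row (s : ℕ) : ℕ × ℕ × List ℕ := tabl.getD s (0, 0, [])

/-- the coefficients of the polynomial `P_s` -/
def a (s n : ℕ) : ℕ := (row s).2.2.getD n 0

/-- the successor states -/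
def nx (s i : ℕ) : ℕ := if i = 0 then (row s).1 else (row s).2.1

/-- the coefficients of `P_{s'}(x^2) + x P_{s''}(x^2)` -/
def b (s n : ℕ) : ℕ := a (nx s (n % 2)) (n / 2)

def sh (f : ℕ → ℕ) (k n : ℕ) : ℕ := if k ≤ n then f (n - k) else 0

def ok (s n : ℕ) : Prop :=
  (sh (a s) 0 n + 10 * sh (a s) 2 n + 5 * sh (a s) 4 n) % 32 =
    (sh (b s) 0 n + 5 * sh (a s) 1 n + 10 * sh (a s) 3 n + sh (a s) 5 n) % 32

instance (s n : ℕ) : Decidable (ok s n) := by unfold ok; infer_instance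

lemma ok_small : ∀ s < 70, ∀ n < 40, ok s n := by decide +kernel

lemma len_le : ∀ s < 70, (row s).2.2.length ≤ 17 := by decide +kernel

lemma nx_lt : ∀ s < 70, ∀ i < 2, nx s i < 70 := by decide +kernel

lemma a_ge (s n : ℕ) (hs : s < 70) (hn : 17 ≤ n) : a s n = 0 := by
  unfold a
  exact List.getD_eq_default _ _ ((len_le s hs).trans hn)

lemma ok_all (s : ℕ) (hs : s < 70) (n : ℕ) : ok s n := by
  by_cases hn : n < 40
  · exact ok_small s hs n hn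
  · unfold ok sh b
    rw [if_pos (by omega), if_pos (by omega), if_pos (by omega), if_pos (by omega),
      if_pos (by omega), if_pos (by omega), if_pos (by omega)]
    rw [a_ge s _ hs (by omega), a_ge s _ hs (by omega), a_ge s _ hs (by omega),
      a_ge s _ hs (by omega), a_ge s _ hs (by omega), a_ge s _ hs (by omega),
      a_ge _ _ (nx_lt s hs _ (by omega)) (by omega)]

/-- the polynomial `P_s` modulo 32 -/
noncomputable def P (s : ℕ) : (ZMod 32)⟦X⟧ := PowerSeries.mk fun n => (a s n : ZMod 32)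

lemma coeff_sh (f : ℕ → ℕ) (k n : ℕ) :
    coeff n (X ^ k * PowerSeries.mk fun n => (f n : ZMod 32)) = (sh f k n : ZMod 32) := by
  rw [coeff_X_pow_mul', coeff_mk]
  unfold sh
  split_ifs <;> simp

lemma P_step (s : ℕ) (hs : s < 70) : (1 - X) ^ 5 * P s =
    expand 2 two_ne_zero (P (nx s 0)) + X * expand 2 two_ne_zero (P (nx s 1)) := by
  have hB : expand 2 two_ne_zero (P (nx s 0)) + X * expand 2 two_ne_zero (P (nx s 1)) =
      PowerSeries.mk fun n => (b s n : ZMod 32) := by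
    ext n
    rcases Nat.even_or_odd' n with ⟨k, rfl | rfl⟩
    · rw [Mahler.coeff_even, P, coeff_mk, coeff_mk]
      unfold b
      rw [show 2 * k % 2 = 0 by omega, show 2 * k / 2 = k by omega]
    · rw [Mahler.coeff_odd, P, coeff_mk, coeff_mk]
      unfold b
      rw [show (2 * k + 1) % 2 = 1 by omega, show (2 * k + 1) / 2 = k by omega]
  rw [hB]
  set Bs : (ZMod 32)⟦X⟧ := PowerSeries.mk fun n => (b s n : ZMod 32)
  have h1 : X ^ 0 * P s + C 10 * (X ^ 2 * P s) + C 5 * (X ^ 4 * P s) =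
      X ^ 0 * Bs + C 5 * (X ^ 1 * P s) + C 10 * (X ^ 3 * P s) + X ^ 5 * P s := by
    ext n
    simp only [map_add, coeff_C_mul]
    have h2 : ∀ k, coeff n (X ^ k * P s) = (sh (a s) k n : ZMod 32) := fun k => coeff_sh _ _ _
    have h3 : ∀ k, coeff n (X ^ k * Bs) = (sh (b s) k n : ZMod 32) := fun k => coeff_sh _ _ _
    rw [h2, h2, h2, h2, h2, h2, h3]
    have h4 := ok_all s hs n
    unfold ok at h4
    have h5 := (ZMod.natCast_eq_natCast_iff _ _ 32).2 h4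
    push_cast at h5
    linear_combination h5
  have hC5 : (C 5 : (ZMod 32)⟦X⟧) = 5 := rfl
  have hC10 : (C 10 : (ZMod 32)⟦X⟧) = 10 := rfl
  rw [hC5, hC10] at h1
  linear_combination h1

lemma h32 : (32 : (ZMod 32)⟦X⟧) = 0 := by
  have e1 : (C 32 : (ZMod 32)⟦X⟧) = 32 := rfl
  have e2 : (32 : ZMod 32) = 0 := by decide +kernel
  rw [← e1, e2, map_zero]

lemma PG_step (s : ℕ) (hs : s < 70) : P s * G (ZMod 32) =
    expand 2 two_ne_zero (P (nx s 0) * G (ZMod 32)) +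
      X * expand 2 two_ne_zero (P (nx s 1) * G (ZMod 32)) := by
  have h1 := G_eq h32
  have h2 := P_step s hs
  rw [map_mul, map_mul]
  linear_combination (P s) * h1 + expand 2 two_ne_zero (G (ZMod 32)) * h2

lemma const_ne : ∀ s < 70, ((a s 0 : ℕ) : ZMod 32) ≠ 0 := by decide +kernel

lemma A_zero : A 2 11 0 = 1 := by
  rw [A_eq, coeff_zero_eq_constantCoeff_apply, map_mul, map_pow, map_sub, map_one, constantCoeff_X,
    sub_zero, one_pow, one_mul, ← coeff_zero_eq_constantCoeff_apply, Mahler.F, coeff_mk,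
    Mahler.c_zero]

lemma G_zero : coeff 0 (G (ZMod 32)) = 1 := by
  have h1 := congrArg (coeff 0) (G_mul (ZMod 32))
  rw [coeff_B, A_zero, coeff_zero_eq_constantCoeff_apply, map_mul, map_pow, map_sub, map_one,
    constantCoeff_X, sub_zero, one_pow, one_mul, ← coeff_zero_eq_constantCoeff_apply] at h1
  rw [h1]
  simp

lemma main (n : ℕ) : ∀ s < 70, coeff n (P s * G (ZMod 32)) ≠ 0 := by
  induction n using Nat.strong_induction_on with
  | _ n ih =>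
    intro s hs
    rcases Nat.eq_zero_or_pos n with hn | hn
    · subst hn
      rw [coeff_zero_eq_constantCoeff_apply, map_mul, ← coeff_zero_eq_constantCoeff_apply,
        ← coeff_zero_eq_constantCoeff_apply, G_zero, mul_one, P, coeff_mk]
      exact const_ne s hs
    · rcases Nat.even_or_odd' n with ⟨k, hk | hk⟩
      · rw [hk, PG_step s hs, Mahler.coeff_even]
        exact ih k (by omega) _ (nx_lt s hs 0 (by norm_num))
      · rw [hk, PG_step s hs, Mahler.coeff_odd]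
        exact ih k (by omega) _ (nx_lt s hs 1 (by norm_num))

lemma P_zero : P 0 = (1 - X) ^ 16 := by
  have h0 : P 0 = PowerSeries.mk fun n => (a 0 n : ZMod 32) := rfl
  have h1 : ((1 - X : (ZMod 32)⟦X⟧)) ^ 16 = 1 + C 16 * X + C 24 * X ^ 2 + C 16 * X ^ 3 +
      C 28 * X ^ 4 + C 16 * X ^ 5 + C 8 * X ^ 6 + C 16 * X ^ 7 + C 6 * X ^ 8 + C 16 * X ^ 9 +
      C 8 * X ^ 10 + C 16 * X ^ 11 + C 28 * X ^ 12 + C 16 * X ^ 13 + C 24 * X ^ 14 +
      C 16 * X ^ 15 + X ^ 16 := by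
    have e16 : (C 16 : (ZMod 32)⟦X⟧) = 16 := rfl
    have e24 : (C 24 : (ZMod 32)⟦X⟧) = 24 := rfl
    have e28 : (C 28 : (ZMod 32)⟦X⟧) = 28 := rfl
    have e8 : (C 8 : (ZMod 32)⟦X⟧) = 8 := rfl
    have e6 : (C 6 : (ZMod 32)⟦X⟧) = 6 := rfl
    rw [e16, e24, e28, e8, e6]
    linear_combination ((-1) * X ^ 1 + (3) * X ^ 2 + (-18) * X ^ 3 + (56) * X ^ 4 + (-137) * X ^ 5 + (250) * X ^ 6 + (-358) * X ^ 7 + (402) * X ^ 8 + (-358) * X ^ 9 + (250) * X ^ 10 + (-137) * X ^ 11 + (56) * X ^ 12 + (-18) * X ^ 13 + (3) * X ^ 14 + (-1) * X ^ 15) * h32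
  rw [h0, h1]
  ext n
  rw [coeff_mk]
  simp only [map_add, coeff_C_mul, coeff_X_pow, coeff_X, coeff_one]
  by_cases hn : n < 17
  · interval_cases n <;> simp <;> decide +kernel
  · rw [a_ge 0 n (by norm_num) (by omega)]
    simp [show n ≠ 0 by omega, show n ≠ 1 by omega, show n ≠ 2 by omega, show n ≠ 3 by omega,
      show n ≠ 4 by omega, show n ≠ 5 by omega, show n ≠ 6 by omega, show n ≠ 7 by omega,
      show n ≠ 8 by omega, show n ≠ 9 by omega, show n ≠ 10 by omega, show n ≠ 11 by omega,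
      show n ≠ 12 by omega, show n ≠ 13 by omega, show n ≠ 14 by omega, show n ≠ 15 by omega,
      show n ≠ 16 by omega]

lemma A_ne (n : ℕ) : ((A 2 11 n : ℤ) : ZMod 32) ≠ 0 := by
  rw [← coeff_B, ← G_mul, ← P_zero]
  exact main n 0 (by norm_num)

theorem val_le (n : ℕ) : padicValInt 2 (A 2 11 n) ≤ 4 := by
  by_contra h
  push Not at h
  apply A_ne n
  rw [ZMod.intCast_zmod_eq_zero_iff_dvd]
  have := Fact.mk Nat.prime_two
  have h1 : ((2 : ℕ) : ℤ) ^ 5 ∣ A 2 11 n := (padicValInt_dvd_iff 5 _).2 (Or.inr h)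
  exact_mod_cast h1

lemma not_mem : 11 ∉ E 2 := by
  rintro ⟨s, u, h1, h2, h3⟩
  have hu : u = 1 := by omega
  subst hu
  have h4 : 2 ^ s = 12 := by omega
  have h5 : s < 4 := by
    by_contra h
    push Not at h
    have := Nat.pow_le_pow_right (show 0 < 2 by norm_num) h
    omega
  interval_cases s <;> omega

theorem result : (∀ n, padicValInt 2 (A 2 11 n) ≤ 4) ∧ 11 ∉ E 2 ∧
    ¬ ∀ p : ℕ, p.Prime → ∀ k : ℕ, 1 ≤ k → k ∉ E p → ∀ C : ℕ, ∃ n, C < padicValInt p (A p k n) := by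
  refine ⟨val_le, not_mem, fun h => ?_⟩
  obtain ⟨n, hn⟩ := h 2 Nat.prime_two 11 (by norm_num) not_mem 4
  exact absurd (val_le n) (not_le.2 hn)

end Pool.Agent.Results.MP_8976f7_nt.BoundedForEleven
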